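import Pool.Agent.H31.CRG.TR
import Pool.Agent.H37.CV.All
import Pool.Agent.H78.CRG.DS
import Pool.Agent.H81.CRG.SE

/-!
Module DR of the board crg_modules: the real relations with the congruence, general degree.
-/

set_option autoImplicit false

open NumberField NumberField.InfinitePlace Finset Complex

namespace Pool.Agent.H1.CRG

open Pool.Agent.H28.RC Pool.Agent.H25.HK Pool.Agent.H37.CV Pool.Agent.H65.CRZ Pool.Agent.H65.CRG
open Pool.Agent.H46.CV (cong_sum fiber_sum diag_sum log_sq_le nm_eq_one nm_top)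
open Pool.Agent.H96.CV (one_le_discr nm_pos min_one_le_rpow)

theorem pf_DR (h1 : Pool.Agent.H31.CRG.T_DT) (h2 : Pool.Agent.H31.CRG.T_DE) :
    Pool.Agent.H31.CRG.T_DR := by
  classical
  intro K _ _ _ ε₁ c C₀ hε₁ hε₁' hc hC₀
  set n : ℕ := Module.finrank ℚ K with hn
  have hn1 : 1 ≤ n := Module.finrank_pos
  have hn1' : (1 : ℝ) ≤ n := by exact_mod_cast hn1
  obtain ⟨δE, C_E, B_E, q₁, hδE, hC_E, hB_E, hDE'⟩ := h2 K ε₁ c C₀ hε₁ hε₁' hc hC₀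
  obtain ⟨δ, hδd⟩ : ∃ δ : ℝ, δ = min δE 1 := ⟨_, rfl⟩
  have hδ : 0 < δ := by rw [hδd]; exact lt_min hδE one_pos
  have hδ1 : δ ≤ 1 := by rw [hδd]; exact min_le_right _ _
  have hδE' : δ ≤ δE := by rw [hδd]; exact min_le_left _ _
  obtain ⟨e, he⟩ : ∃ e : ℝ, e = δ / (64 * ((n : ℝ) + 2)) := ⟨_, rfl⟩
  have he0 : 0 < e := by rw [he]; positivity
  have he48 : e ≤ 1 / 192 := by
    rw [he, div_le_div_iff₀ (by positivity) (by norm_num)]
    nlinarith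
  have hen : ((n : ℝ) + 2) * e = δ / 64 := by rw [he]; field_simp
  have hen3 : ((n : ℝ) + 2) * (3 * e) ≤ 3 / 8 := by nlinarith
  obtain ⟨C_T, B_T, hC_T0, hB_T, hC_T⟩ := h1 K (e / 8) 1 (by positivity) (by linarith)
  obtain ⟨C_V, hC_V1, -, hC_V⟩ := (a_DV K).1 e he0
  obtain ⟨C_I, hC_I1, hC_I, -⟩ := (a_DV (Kp K)).1 e he0
  obtain ⟨Z_c, hZ_c, hcong⟩ := cong_sum e he0 (by linarith)
  obtain ⟨Z_d, hZ_d, hdiag⟩ := diag_sum
  obtain ⟨c0, hc0d⟩ : ∃ c0 : ℝ, c0 = |(discr K : ℝ)| / ((2 * Real.pi) ^ nrComplexPlaces K) ^ 2 :=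
    ⟨_, rfl⟩
  have hc0 : 0 < c0 := by
    have h2 := one_le_discr K
    have h3 : 0 < |(discr K : ℝ)| := by linarith
    rw [hc0d]
    positivity
  obtain ⟨Ka, hKa⟩ : ∃ Ka : ℝ, Ka = C_I ^ 2 * (C_E * C_V ^ 2) * (529 * Z_d) := ⟨_, rfl⟩
  obtain ⟨Kb, hKb⟩ : ∃ Kb : ℝ, Kb = C_I ^ 2 * (C_T * 3 ^ B_T * C_V ^ 2 * c0 ^ e) * Z_d :=
    ⟨_, rfl⟩
  obtain ⟨Kc, hKc⟩ : ∃ Kc : ℝ, Kc = C_I ^ 2 * (C_T * 3 ^ B_T * C_V ^ 2 * c0 ^ (3 * e)) * Z_c :=
    ⟨_, rfl⟩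
  have h3B : (0 : ℝ) < 3 ^ B_T := Real.rpow_pos_of_pos (by norm_num) _
  have hKa0 : 0 ≤ Ka := by rw [hKa]; positivity
  have hKb0 : 0 ≤ Kb := by rw [hKb]; positivity
  have hKc0 : 0 ≤ Kc := by rw [hKc]; positivity
  refine ⟨max B_E B_T, hB_E.trans (le_max_left _ _), ?_⟩
  intro η hη
  have hlim : Filter.Tendsto (fun x : ℝ => Ka / Real.log x + Kb * x ^ (-(δ / 32)) +
      Kc * x ^ (-(5 / 8 : ℝ))) Filter.atTop (nhds 0) := by
    have t1 : Filter.Tendsto (fun x : ℝ => Ka / Real.log x) Filter.atTop (nhds 0) :=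
      Real.tendsto_log_atTop.const_div_atTop Ka
    have t2 := (tendsto_rpow_neg_atTop (show 0 < δ / 32 by positivity)).const_mul Kb
    have t3 := (tendsto_rpow_neg_atTop (show (0 : ℝ) < 5 / 8 by norm_num)).const_mul Kc
    have := (t1.add t2).add t3
    simpa using this
  have hlim2 : Filter.Tendsto (fun x : ℝ => C₀ / Real.log x) Filter.atTop (nhds 0) :=
    Real.tendsto_log_atTop.const_div_atTop C₀
  obtain ⟨x₀, hx₀⟩ := Filter.eventually_atTop.1 (hlim.eventually (gt_mem_nhds hη))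
  obtain ⟨x₁, hx₁⟩ := Filter.eventually_atTop.1
    (hlim2.eventually (gt_mem_nhds (show 0 < e / 8 by positivity)))
  refine ⟨max (max q₁ ⌈x₀⌉₊) (max ⌈x₁⌉₊ ⌈1 / c0⌉₊), ?_⟩
  intro q hq hq0 α β u hα hβ hαβ X hX
  obtain ⟨x, hx⟩ : ∃ x : ℝ, x = (q : ℝ) := ⟨_, rfl⟩
  have hx1 : (1 : ℝ) ≤ x := by rw [hx]; exact_mod_cast hq.one_le
  have hx2 : (2 : ℝ) ≤ x := by rw [hx]; exact_mod_cast hq.two_le
  have hx0 : 0 < x := by linarith
  have hlx : 0 < Real.log x := Real.log_pos (by linarith)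
  have hceil : ∀ y : ℝ, ⌈y⌉₊ ≤ q → y ≤ x := fun y h => by
    calc y ≤ (⌈y⌉₊ : ℝ) := Nat.le_ceil _
      _ ≤ x := by rw [hx]; exact_mod_cast h
  have hxx₀ : x₀ ≤ x := hceil _ (((le_max_right _ _).trans (le_max_left _ _)).trans hq0)
  have hxx₁ : x₁ ≤ x := hceil _ (((le_max_left _ _).trans (le_max_right _ _)).trans hq0)
  have hxx₂ : 1 / c0 ≤ x := hceil _ (((le_max_right _ _).trans (le_max_right _ _)).trans hq0)
  have hc0x : 1 ≤ c0 * x := by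
    rw [div_le_iff₀ hc0] at hxx₂
    linarith
  have hfin := (hx₀ x hxx₀).le
  have hsmall := (hx₁ x hxx₁).le
  have hDE2 := hDE' q hq (((le_max_left _ _).trans (le_max_left _ _)).trans hq0) α β u hα hβ hαβ
  rw [← hx] at hα hβ hαβ hDE2
  obtain ⟨hs1, hs2, him⟩ := Pool.Agent.H81.CRG.shift (δ := e / 8) (by linarith) α β u
    (hα.trans hsmall) (hβ.trans hsmall)
  have hM1 : 1 ≤ Mq ε₁ q := by
    unfold Mq
    rw [← hx]
    exact Real.one_le_rpow hx1 (by linarith)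
  have hMx : Mq ε₁ q ≤ x := by
    unfold Mq
    rw [← hx]
    conv_rhs => rw [← Real.rpow_one x]
    exact Real.rpow_le_rpow_of_exponent_le hx1 (by linarith)
  have hcu1 : ∀ S : Finset (PrI K), ‖cu K (Mq ε₁ q) u S‖ ≤ nS np S ^ (-(1 / 2) : ℝ) :=
    fun S => Pool.Agent.H81.CRG.norm_cu_le hM1 u S
  have hcu2 : ∀ S : Finset (PrI K), ‖cu K (Mq ε₁ q) (-u) S‖ ≤ nS np S ^ (-(1 / 2) : ℝ) :=
    fun S => Pool.Agent.H81.CRG.norm_cu_le hM1 (-u) S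
  have hQe : cB K (qi K q) ^ 2 = c0 * x ^ n := by
    rw [Pool.Agent.H78.CRG.cB_sq, hc0d, hx]
  have hQ1 : 1 ≤ cB K (qi K q) ^ 2 := by
    rw [hQe]
    refine hc0x.trans (mul_le_mul_of_nonneg_left ?_ hc0.le)
    exact le_self_pow₀ hx1 (by omega)
  obtain ⟨Q, hQ⟩ : ∃ Q : ℝ, Q = cB K (qi K q) ^ 2 := ⟨_, rfl⟩
  obtain ⟨M, hM⟩ : ∃ M : ℝ, M = Mq ε₁ q := ⟨_, rfl⟩
  obtain ⟨s₁, hs₁⟩ : ∃ s₁ : ℂ, s₁ = 1 / 2 + α + u * I := ⟨_, rfl⟩
  obtain ⟨s₂, hs₂⟩ : ∃ s₂ : ℂ, s₂ = 1 / 2 + β - u * I := ⟨_, rfl⟩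
  rw [← hQ] at hQe hQ1
  rw [← hM] at hM1 hMx hcu1 hcu2
  rw [← hs₁, ← hs₂] at him
  rw [← hs₁] at hs1
  rw [← hs₂] at hs2
  simp only [← hQ, ← hM, ← hs₁, ← hs₂] at hDE2 ⊢
  have hu1 : 1 ≤ 1 + |u| := by
    have := abs_nonneg u
    linarith
  obtain ⟨Y, hY⟩ : ∃ Y : ℝ, Y = (1 + |u|) ^ max B_E B_T := ⟨_, rfl⟩
  have hY1 : 1 ≤ Y := by
    rw [hY]
    exact Real.one_le_rpow hu1 (hB_E.trans (le_max_left _ _))
  have hY0 : 0 ≤ Y := by linarith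
  have hYE : (1 + |u|) ^ B_E ≤ Y := by
    rw [hY]
    exact Real.rpow_le_rpow_of_exponent_le hu1 (le_max_left _ _)
  have hYT : (1 + |s₁.im| + |s₂.im|) ^ B_T ≤ 3 ^ B_T * Y := by
    have h0 : 0 ≤ 1 + |s₁.im| + |s₂.im| := by positivity
    calc (1 + |s₁.im| + |s₂.im|) ^ B_T ≤ (3 * (1 + |u|)) ^ B_T :=
          Real.rpow_le_rpow h0 him hB_T
      _ = 3 ^ B_T * (1 + |u|) ^ B_T := Real.mul_rpow (by norm_num) (by linarith)
      _ ≤ 3 ^ B_T * Y := by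
          rw [hY]
          exact mul_le_mul_of_nonneg_left
            (Real.rpow_le_rpow_of_exponent_le hu1 (le_max_right _ _)) h3B.le
  rw [← hY]
  have hQM0 : 0 < Q * M ^ 2 := by positivity
  have hQM1 : Q * M ^ 2 ≤ c0 * x ^ (n + 2) := by
    rw [hQe, pow_add]
    calc c0 * x ^ n * M ^ 2 ≤ c0 * x ^ n * x ^ 2 := by gcongr
      _ = _ := by ring
  have hQMp : ∀ t : ℝ, 0 ≤ t → (Q * M ^ 2) ^ t ≤ c0 ^ t * x ^ (((n : ℝ) + 2) * t) := by
    intro t ht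
    calc (Q * M ^ 2) ^ t ≤ (c0 * x ^ (n + 2)) ^ t := Real.rpow_le_rpow hQM0.le hQM1 ht
      _ = _ := by
          rw [Real.mul_rpow (by positivity) (by positivity), ← Real.rpow_natCast x,
            ← Real.rpow_mul hx0.le]
          push_cast
          rfl
  have hQMe : (Q * M ^ 2) ^ e ≤ c0 ^ e * x ^ (δ / 64) := by
    have := hQMp e he0.le
    rwa [hen] at this
  have hQM3 : (Q * M ^ 2) ^ (3 * e) ≤ c0 ^ (3 * e) * x ^ (3 / 8 : ℝ) := by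
    refine (hQMp (3 * e) (by positivity)).trans ?_
    have := Real.rpow_le_rpow_of_exponent_le hx1 hen3
    gcongr
  -- the ideals of the real subfield
  have hch : ∀ p ∈ X, ∃ z : Ideal (𝓞 (Kp K)) × Ideal (𝓞 (Kp K)),
      Real2 p z.1 z.2 ∧ Cg q z.1 z.2 := by
    intro p hp
    obtain ⟨-, -, y₁, y₂, h⟩ := hX p hp
    exact ⟨(y₁, y₂), h⟩
  choose! g hg using hch
  have hinj : Set.InjOn g X := by
    intro p hp p' hp' h
    have h1 := (hg p hp).1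
    have h2 := (hg p' hp').1
    rw [← h] at h2
    exact Prod.ext (h1.2.2.1.trans h2.2.2.1.symm) (h1.2.2.2.1.trans h2.2.2.2.1.symm)
  have hgb : ∀ p ∈ X, (g p).1 ≠ ⊥ ∧ (g p).2 ≠ ⊥ := fun p hp =>
    ⟨(hg p hp).1.1, (hg p hp).1.2.1⟩
  set N1 : Ideal (𝓞 K) × Ideal (𝓞 K) → ℕ := fun p => Ideal.absNorm (g p).1 with hN1
  set N2 : Ideal (𝓞 K) × Ideal (𝓞 K) → ℕ := fun p => Ideal.absNorm (g p).2 with hN2
  have hN : ∀ p ∈ X, 1 ≤ N1 p ∧ 1 ≤ N2 p := fun p hp =>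
    ⟨Nat.one_le_iff_ne_zero.mpr (fun h => (hgb p hp).1 (Ideal.absNorm_eq_zero_iff.mp h)),
      Nat.one_le_iff_ne_zero.mpr (fun h => (hgb p hp).2 (Ideal.absNorm_eq_zero_iff.mp h))⟩
  have hnm : ∀ p ∈ X, nm p.1 * nm p.2 = ((N1 p : ℝ) * N2 p) ^ 2 := by
    intro p hp
    obtain ⟨-, -, -, -, a5, a6⟩ := (hg p hp).1
    rw [a5, a6, hN1, hN2]
    unfold nm
    ring
  have hXp : ∀ p ∈ X, p.1 ≠ ⊥ ∧ p.2 ≠ ⊥ ∧ p.1 ⊔ p.2 = ⊤ := fun p hp =>
    ⟨(hX p hp).1.1, (hX p hp).1.2.1, (hX p hp).1.2.2.1⟩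
  set w : Ideal (𝓞 K) × Ideal (𝓞 K) → ℝ := fun p =>
    ‖Dn (qi K q) Q M s₁ s₂ (cu K M u) (cu K M (-u)) p.1 p.2‖ with hw
  have hpf : ∀ p ∈ X, (2 : ℝ) ^ ((pf p.1).card + (pf p.2).card) ≤
      C_V ^ 2 * ((N1 p : ℝ) * N2 p) ^ (2 * e) := by
    intro p hp
    obtain ⟨a1, a2, -⟩ := hXp p hp
    obtain ⟨b1, b2⟩ := hN p hp
    have b1' : (1 : ℝ) ≤ N1 p := by exact_mod_cast b1
    have b2' : (1 : ℝ) ≤ N2 p := by exact_mod_cast b2
    rw [pow_add]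
    have c1 := hC_V p.1 a1
    have c2 := hC_V p.2 a2
    have c3 : nm p.1 ^ e * nm p.2 ^ e = ((N1 p : ℝ) * N2 p) ^ (2 * e) := by
      rw [← Real.mul_rpow (nm_pos a1).le (nm_pos a2).le, hnm p hp, ← Real.rpow_natCast,
        ← Real.rpow_mul (by positivity)]
      push_cast
      rfl
    calc (2 : ℝ) ^ (pf p.1).card * 2 ^ (pf p.2).card
        ≤ (C_V * nm p.1 ^ e) * (C_V * nm p.2 ^ e) :=
          mul_le_mul c1 c2 (by positivity) (le_trans (by positivity) c1)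
      _ = C_V ^ 2 * (nm p.1 ^ e * nm p.2 ^ e) := by ring
      _ = _ := by rw [c3]
  have hhalf : ∀ p ∈ X, (nm p.1 * nm p.2) ^ (-(1 / 2) : ℝ) = ((N1 p : ℝ) * N2 p) ^ (-1 : ℝ) := by
    intro p hp
    rw [hnm p hp, ← Real.rpow_natCast, ← Real.rpow_mul (by positivity)]
    congr 1
    push_cast
    ring
  -- the trivial bound
  have h88 : (8 * (e / 8) : ℝ) = e := by ring
  have hDTp : ∀ p ∈ X, w p ≤ C_T * 3 ^ B_T * C_V ^ 2 * Y * (Q * M ^ 2) ^ e *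
      (((N1 p : ℝ) * N2 p) ^ (-1 : ℝ) * ((N1 p : ℝ) * N2 p) ^ (2 * e)) *
        min 1 (Q * M ^ 2 / ((N1 p : ℝ) * N2 p) ^ 2) := by
    intro p hp
    obtain ⟨a1, a2, a3⟩ := hXp p hp
    have h1 := hC_T (qi K q) Q M s₁ s₂ (cu K M u) (cu K M (-u)) p.1 p.2 hQ1 hM1 hs1 hs2 hcu1 hcu2
      a1 a2 a3
    rw [hhalf p hp, hnm p hp, pow_one, h88] at h1
    have h2 := hpf p hp
    have h3 : 0 ≤ min 1 (Q * M ^ 2 / ((N1 p : ℝ) * N2 p) ^ 2) := le_min zero_le_one (by positivity)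
    calc w p ≤ C_T * (1 + |s₁.im| + |s₂.im|) ^ B_T * ((N1 p : ℝ) * N2 p) ^ (-1 : ℝ) *
          2 ^ ((pf p.1).card + (pf p.2).card) * (Q * M ^ 2) ^ e *
          min 1 (Q * M ^ 2 / ((N1 p : ℝ) * N2 p) ^ 2) := h1
      _ ≤ C_T * (3 ^ B_T * Y) * ((N1 p : ℝ) * N2 p) ^ (-1 : ℝ) *
          (C_V ^ 2 * ((N1 p : ℝ) * N2 p) ^ (2 * e)) * (Q * M ^ 2) ^ e *
          min 1 (Q * M ^ 2 / ((N1 p : ℝ) * N2 p) ^ 2) := by gcongr
      _ = _ := by ring
  set X3 := X.filter (fun p => ¬ N1 p = N2 p) with hX3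
  set X0 := X.filter (fun p => N1 p = N2 p) with hX0
  set X1 := X0.filter (fun p => ((N1 p : ℝ) * N2 p) ^ 2 ≤ x ^ δ) with hX1
  set X2 := X0.filter (fun p => ¬ ((N1 p : ℝ) * N2 p) ^ 2 ≤ x ^ δ) with hX2
  have hsplit : ∑ p ∈ X, w p = ∑ p ∈ X1, w p + ∑ p ∈ X2, w p + ∑ p ∈ X3, w p := by
    rw [hX1, hX2, Finset.sum_filter_add_sum_filter_not, hX0, hX3,
      Finset.sum_filter_add_sum_filter_not]
  -- the first part
  have h1 : ∑ p ∈ X1, w p ≤ Ka / Real.log x * Y := by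
    have hsub : ∀ p ∈ X1, p ∈ X ∧ N1 p = N2 p ∧ ((N1 p : ℝ) * N2 p) ^ 2 ≤ x ^ δ := by
      intro p hp
      obtain ⟨b1, b2⟩ := Finset.mem_filter.mp hp
      obtain ⟨b3, b4⟩ := Finset.mem_filter.mp b1
      exact ⟨b3, b4, b2⟩
    set T : ℕ × ℕ → ℝ := fun s => C_E / Real.log x * Y * C_V ^ 2 *
      (((s.1 : ℝ) * s.2) ^ (-1 : ℝ) * ((s.1 : ℝ) * s.2) ^ (2 * e)) *
      (1 + Real.log (((s.1 : ℝ) * s.2) ^ 2)) ^ 2 with hT
    have hT0 : ∀ s, 0 ≤ T s := fun s => by positivity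
    have hle : ∀ p ∈ X1, w p ≤ T (Ideal.absNorm (g p).1, Ideal.absNorm (g p).2) := by
      intro p hp
      obtain ⟨b1, b2, b3⟩ := hsub p hp
      obtain ⟨a1, a2, a3⟩ := hXp p b1
      have hne : p ≠ (⊤, ⊤) := (hX p b1).2.1
      obtain ⟨-, -, -, -, a5, a6⟩ := (hg p b1).1
      have hnn : nm (g p).1 = nm (g p).2 := by
        unfold nm
        exact_mod_cast b2
      have hI : p.1 ≠ ⊤ := by
        intro h
        have e1 : nm p.2 = 1 := by rw [a6, ← hnn, ← a5, h, nm_top]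
        exact hne (Prod.ext h (nm_eq_one e1))
      have hJ : p.2 ≠ ⊤ := by
        intro h
        have e1 : nm p.1 = 1 := by rw [a5, hnn, ← a6, h, nm_top]
        exact hne (Prod.ext (nm_eq_one e1) h)
      have h2 := hDE2 p.1 p.2 a1 a2 hI hJ a3 (by
        rw [hnm p b1]
        exact b3.trans (Real.rpow_le_rpow_of_exponent_le hx1 hδE'))
      rw [hhalf p b1, hnm p b1] at h2
      have h3 := hpf p b1
      obtain ⟨d1, d2⟩ := hN p b1
      have d1' : (1 : ℝ) ≤ N1 p := by exact_mod_cast d1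
      have d2' : (1 : ℝ) ≤ N2 p := by exact_mod_cast d2
      have hW1 : (1 : ℝ) ≤ (N1 p : ℝ) * N2 p := one_le_mul_of_one_le_of_one_le d1' d2'
      have hl0 : 0 ≤ Real.log (((N1 p : ℝ) * N2 p) ^ 2) := Real.log_nonneg (one_le_pow₀ hW1)
      have hl1 : 1 + Real.log (((N1 p : ℝ) * N2 p) ^ 2) ≤
          (1 + Real.log (((N1 p : ℝ) * N2 p) ^ 2)) ^ 2 := by nlinarith
      calc w p ≤ C_E / Real.log x * (1 + |u|) ^ B_E * ((N1 p : ℝ) * N2 p) ^ (-1 : ℝ) *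
            2 ^ ((pf p.1).card + (pf p.2).card) *
            (1 + Real.log (((N1 p : ℝ) * N2 p) ^ 2)) := h2
        _ ≤ C_E / Real.log x * Y * ((N1 p : ℝ) * N2 p) ^ (-1 : ℝ) *
            (C_V ^ 2 * ((N1 p : ℝ) * N2 p) ^ (2 * e)) *
            (1 + Real.log (((N1 p : ℝ) * N2 p) ^ 2)) ^ 2 := by gcongr
        _ = T (N1 p, N2 p) := by rw [hT]; ring
    refine (Finset.sum_le_sum hle).trans ((fiber_sum C_I e (by linarith) hC_I X1 g
      (hinj.mono fun p hp => (hsub p hp).1) (fun p hp => hgb p (hsub p hp).1) T hT0).trans ?_)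
    have hS : ∀ s ∈ X1.image (fun p => (Ideal.absNorm (g p).1, Ideal.absNorm (g p).2)),
        s.1 = s.2 ∧ 1 ≤ s.1 ∧ 1 ≤ s.2 := by
      intro s hs
      obtain ⟨p, hp, rfl⟩ := Finset.mem_image.mp hs
      obtain ⟨b1, b2, b3⟩ := hsub p hp
      exact ⟨b2, hN p b1⟩
    calc ∑ s ∈ X1.image (fun p => (Ideal.absNorm (g p).1, Ideal.absNorm (g p).2)),
          C_I ^ 2 * ((s.1 : ℝ) * s.2) ^ e * T s
        ≤ ∑ s ∈ X1.image (fun p => (Ideal.absNorm (g p).1, Ideal.absNorm (g p).2)),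
          (C_I ^ 2 * (C_E * C_V ^ 2) * 529 / Real.log x * Y) *
            ((s.1 : ℝ) * s.2) ^ (-(3 / 4) : ℝ) := by
          refine Finset.sum_le_sum fun s hs => ?_
          obtain ⟨-, c1, c2⟩ := hS s hs
          have c1' : (1 : ℝ) ≤ s.1 := by exact_mod_cast c1
          have c2' : (1 : ℝ) ≤ s.2 := by exact_mod_cast c2
          set W : ℝ := (s.1 : ℝ) * s.2 with hW
          have hW1 : 1 ≤ W := one_le_mul_of_one_le_of_one_le c1' c2'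
          have hW0 : 0 < W := by linarith
          have k1 := log_sq_le hW1
          have k2 : W ^ e * (W ^ (-1 : ℝ) * W ^ (2 * e)) * W ^ (3 / 16 : ℝ) ≤
              W ^ (-(3 / 4) : ℝ) := by
            rw [← Real.rpow_add hW0, ← Real.rpow_add hW0, ← Real.rpow_add hW0]
            exact Real.rpow_le_rpow_of_exponent_le hW1 (by linarith)
          calc C_I ^ 2 * W ^ e * T s = (C_I ^ 2 * (C_E * C_V ^ 2) / Real.log x * Y) *
                (W ^ e * (W ^ (-1 : ℝ) * W ^ (2 * e)) * (1 + Real.log (W ^ 2)) ^ 2) := by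
                rw [hT]; ring
            _ ≤ (C_I ^ 2 * (C_E * C_V ^ 2) / Real.log x * Y) *
                (W ^ e * (W ^ (-1 : ℝ) * W ^ (2 * e)) * (529 * W ^ (3 / 16 : ℝ))) := by gcongr
            _ = (C_I ^ 2 * (C_E * C_V ^ 2) * 529 / Real.log x * Y) *
                (W ^ e * (W ^ (-1 : ℝ) * W ^ (2 * e)) * W ^ (3 / 16 : ℝ)) := by ring
            _ ≤ _ := by gcongr
      _ = (C_I ^ 2 * (C_E * C_V ^ 2) * 529 / Real.log x * Y) *
          ∑ s ∈ X1.image (fun p => (Ideal.absNorm (g p).1, Ideal.absNorm (g p).2)),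
            ((s.1 : ℝ) * s.2) ^ (-(3 / 4) : ℝ) := by rw [Finset.mul_sum]
      _ ≤ (C_I ^ 2 * (C_E * C_V ^ 2) * 529 / Real.log x * Y) * Z_d := by
          have := hdiag _ fun s hs => (hS s hs).1
          gcongr
      _ = Ka / Real.log x * Y := by rw [hKa]; ring
  -- the second part
  have h2 : ∑ p ∈ X2, w p ≤ Kb * x ^ (-(δ / 32)) * Y := by
    have hsub : ∀ p ∈ X2, p ∈ X ∧ N1 p = N2 p ∧ x ^ δ < ((N1 p : ℝ) * N2 p) ^ 2 := by
      intro p hp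
      obtain ⟨b1, b2⟩ := Finset.mem_filter.mp hp
      obtain ⟨b3, b4⟩ := Finset.mem_filter.mp b1
      exact ⟨b3, b4, not_le.mp b2⟩
    set T : ℕ × ℕ → ℝ := fun s => C_T * 3 ^ B_T * C_V ^ 2 * Y * (Q * M ^ 2) ^ e *
      (((s.1 : ℝ) * s.2) ^ (-1 : ℝ) * ((s.1 : ℝ) * s.2) ^ (2 * e)) with hT
    have hT0 : ∀ s, 0 ≤ T s := fun s => by positivity
    have hle : ∀ p ∈ X2, w p ≤ T (Ideal.absNorm (g p).1, Ideal.absNorm (g p).2) := by
      intro p hp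
      obtain ⟨b1, b2, b3⟩ := hsub p hp
      refine (hDTp p b1).trans ?_
      calc C_T * 3 ^ B_T * C_V ^ 2 * Y * (Q * M ^ 2) ^ e * (((N1 p : ℝ) * N2 p) ^ (-1 : ℝ) *
            ((N1 p : ℝ) * N2 p) ^ (2 * e)) * min 1 (Q * M ^ 2 / ((N1 p : ℝ) * N2 p) ^ 2)
          ≤ C_T * 3 ^ B_T * C_V ^ 2 * Y * (Q * M ^ 2) ^ e * (((N1 p : ℝ) * N2 p) ^ (-1 : ℝ) *
            ((N1 p : ℝ) * N2 p) ^ (2 * e)) * 1 := by
            gcongr
            exact min_le_left _ _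
        _ = T (N1 p, N2 p) := by rw [hT]; ring
    refine (Finset.sum_le_sum hle).trans ((fiber_sum C_I e (by linarith) hC_I X2 g
      (hinj.mono fun p hp => (hsub p hp).1) (fun p hp => hgb p (hsub p hp).1) T hT0).trans ?_)
    have hS : ∀ s ∈ X2.image (fun p => (Ideal.absNorm (g p).1, Ideal.absNorm (g p).2)),
        s.1 = s.2 ∧ 1 ≤ s.1 ∧ 1 ≤ s.2 ∧ x ^ δ < ((s.1 : ℝ) * s.2) ^ 2 := by
      intro s hs
      obtain ⟨p, hp, rfl⟩ := Finset.mem_image.mp hs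
      obtain ⟨b1, b2, b3⟩ := hsub p hp
      exact ⟨b2, (hN p b1).1, (hN p b1).2, b3⟩
    calc ∑ s ∈ X2.image (fun p => (Ideal.absNorm (g p).1, Ideal.absNorm (g p).2)),
          C_I ^ 2 * ((s.1 : ℝ) * s.2) ^ e * T s
        ≤ ∑ s ∈ X2.image (fun p => (Ideal.absNorm (g p).1, Ideal.absNorm (g p).2)),
          (C_I ^ 2 * (C_T * 3 ^ B_T * C_V ^ 2 * c0 ^ e) * x ^ (-(δ / 32)) * Y) *
            ((s.1 : ℝ) * s.2) ^ (-(3 / 4) : ℝ) := by
          refine Finset.sum_le_sum fun s hs => ?_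
          obtain ⟨-, c1, c2, c3⟩ := hS s hs
          have c1' : (1 : ℝ) ≤ s.1 := by exact_mod_cast c1
          have c2' : (1 : ℝ) ≤ s.2 := by exact_mod_cast c2
          set W : ℝ := (s.1 : ℝ) * s.2 with hW
          have hW1 : 1 ≤ W := one_le_mul_of_one_le_of_one_le c1' c2'
          have hW0 : 0 < W := by linarith
          have k1 : W ^ e * (W ^ (-1 : ℝ) * W ^ (2 * e)) ≤
              W ^ (-(3 / 4) : ℝ) * W ^ (-(3 / 16) : ℝ) := by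
            rw [← Real.rpow_add hW0, ← Real.rpow_add hW0, ← Real.rpow_add hW0]
            exact Real.rpow_le_rpow_of_exponent_le hW1 (by linarith)
          have k2 : W ^ (-(3 / 16) : ℝ) ≤ x ^ (-(3 * δ / 32)) := by
            have k3 : W ^ (-(3 / 16) : ℝ) = (W ^ 2) ^ (-(3 / 32) : ℝ) := by
              rw [← Real.rpow_natCast, ← Real.rpow_mul hW0.le]
              norm_num
            have k4 : x ^ (-(3 * δ / 32)) = (x ^ δ) ^ (-(3 / 32) : ℝ) := by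
              rw [← Real.rpow_mul hx0.le]
              congr 1
              ring
            rw [k3, k4]
            exact Real.rpow_le_rpow_of_nonpos (by positivity) c3.le (by norm_num)
          have k5 : x ^ (δ / 64) * x ^ (-(3 * δ / 32)) ≤ x ^ (-(δ / 32)) := by
            rw [← Real.rpow_add hx0]
            exact Real.rpow_le_rpow_of_exponent_le hx1 (by linarith)
          calc C_I ^ 2 * W ^ e * T s = (C_I ^ 2 * (C_T * 3 ^ B_T * C_V ^ 2) * Y) *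
                (Q * M ^ 2) ^ e * (W ^ e * (W ^ (-1 : ℝ) * W ^ (2 * e))) := by
                rw [hT]; ring
            _ ≤ (C_I ^ 2 * (C_T * 3 ^ B_T * C_V ^ 2) * Y) * (c0 ^ e * x ^ (δ / 64)) *
                (W ^ (-(3 / 4) : ℝ) * x ^ (-(3 * δ / 32))) := by
                have k6 := k1.trans (mul_le_mul_of_nonneg_left k2 (by positivity))
                gcongr
            _ = (C_I ^ 2 * (C_T * 3 ^ B_T * C_V ^ 2 * c0 ^ e) * Y) *
                (x ^ (δ / 64) * x ^ (-(3 * δ / 32))) * W ^ (-(3 / 4) : ℝ) := by ring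
            _ ≤ (C_I ^ 2 * (C_T * 3 ^ B_T * C_V ^ 2 * c0 ^ e) * Y) *
                x ^ (-(δ / 32)) * W ^ (-(3 / 4) : ℝ) := by gcongr
            _ = _ := by ring
      _ = (C_I ^ 2 * (C_T * 3 ^ B_T * C_V ^ 2 * c0 ^ e) * x ^ (-(δ / 32)) * Y) *
          ∑ s ∈ X2.image (fun p => (Ideal.absNorm (g p).1, Ideal.absNorm (g p).2)),
            ((s.1 : ℝ) * s.2) ^ (-(3 / 4) : ℝ) := by rw [Finset.mul_sum]
      _ ≤ (C_I ^ 2 * (C_T * 3 ^ B_T * C_V ^ 2 * c0 ^ e) * x ^ (-(δ / 32)) * Y) * Z_d := by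
          have := hdiag _ fun s hs => (hS s hs).1
          gcongr
      _ = Kb * x ^ (-(δ / 32)) * Y := by rw [hKb]; ring
  -- the third part
  have h3 : ∑ p ∈ X3, w p ≤ Kc * x ^ (-(5 / 8 : ℝ)) * Y := by
    have hsub : ∀ p ∈ X3, p ∈ X ∧ N1 p ≠ N2 p := by
      intro p hp
      obtain ⟨b1, b2⟩ := Finset.mem_filter.mp hp
      exact ⟨b1, b2⟩
    set T : ℕ × ℕ → ℝ := fun s => C_T * 3 ^ B_T * C_V ^ 2 * Y * (Q * M ^ 2) ^ (3 * e) *
      (((s.1 : ℝ) * s.2) ^ (-1 : ℝ) * ((s.1 : ℝ) * s.2) ^ (2 * e) *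
        ((s.1 : ℝ) * s.2) ^ (-(4 * e))) with hT
    have hT0 : ∀ s, 0 ≤ T s := fun s => by positivity
    have hle : ∀ p ∈ X3, w p ≤ T (Ideal.absNorm (g p).1, Ideal.absNorm (g p).2) := by
      intro p hp
      obtain ⟨b1, b2⟩ := hsub p hp
      obtain ⟨c1, c2⟩ := hN p b1
      have c1' : (1 : ℝ) ≤ N1 p := by exact_mod_cast c1
      have c2' : (1 : ℝ) ≤ N2 p := by exact_mod_cast c2
      refine (hDTp p b1).trans ?_
      have hmin : min 1 (Q * M ^ 2 / ((N1 p : ℝ) * N2 p) ^ 2) ≤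
          (Q * M ^ 2) ^ (2 * e) * ((N1 p : ℝ) * N2 p) ^ (-(4 * e)) := by
        refine (min_one_le_rpow (by positivity) (by positivity : 0 ≤ 2 * e)
          (by linarith)).trans (le_of_eq ?_)
        rw [Real.div_rpow (by positivity) (by positivity), div_eq_mul_inv,
          ← Real.rpow_natCast ((N1 p : ℝ) * N2 p), ← Real.rpow_mul (by positivity),
          ← Real.rpow_neg (by positivity)]
        congr 2
        push_cast
        ring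
      have h3e : (Q * M ^ 2) ^ (3 * e) = (Q * M ^ 2) ^ e * (Q * M ^ 2) ^ (2 * e) := by
        rw [← Real.rpow_add hQM0]
        congr 1
        ring
      calc C_T * 3 ^ B_T * C_V ^ 2 * Y * (Q * M ^ 2) ^ e * (((N1 p : ℝ) * N2 p) ^ (-1 : ℝ) *
            ((N1 p : ℝ) * N2 p) ^ (2 * e)) * min 1 (Q * M ^ 2 / ((N1 p : ℝ) * N2 p) ^ 2)
          ≤ C_T * 3 ^ B_T * C_V ^ 2 * Y * (Q * M ^ 2) ^ e * (((N1 p : ℝ) * N2 p) ^ (-1 : ℝ) *
            ((N1 p : ℝ) * N2 p) ^ (2 * e)) *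
            ((Q * M ^ 2) ^ (2 * e) * ((N1 p : ℝ) * N2 p) ^ (-(4 * e))) := by
            gcongr
        _ = T (N1 p, N2 p) := by rw [hT]; simp only [h3e]; ring
    refine (Finset.sum_le_sum hle).trans ((fiber_sum C_I e (by linarith) hC_I X3 g
      (hinj.mono fun p hp => (hsub p hp).1) (fun p hp => hgb p (hsub p hp).1) T hT0).trans ?_)
    have hS : ∀ s ∈ X3.image (fun p => (Ideal.absNorm (g p).1, Ideal.absNorm (g p).2)),
        1 ≤ s.1 ∧ 1 ≤ s.2 ∧ s.1 ≠ s.2 ∧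
          ((q : ℤ) ∣ (s.1 : ℤ) - s.2 ∨ (q : ℤ) ∣ (s.1 : ℤ) + s.2) := by
      intro s hs
      obtain ⟨p, hp, rfl⟩ := Finset.mem_image.mp hs
      obtain ⟨b1, b2⟩ := hsub p hp
      exact ⟨(hN p b1).1, (hN p b1).2, b2, (hg p b1).2⟩
    calc ∑ s ∈ X3.image (fun p => (Ideal.absNorm (g p).1, Ideal.absNorm (g p).2)),
          C_I ^ 2 * ((s.1 : ℝ) * s.2) ^ e * T s
        ≤ ∑ s ∈ X3.image (fun p => (Ideal.absNorm (g p).1, Ideal.absNorm (g p).2)),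
          (C_I ^ 2 * (C_T * 3 ^ B_T * C_V ^ 2 * c0 ^ (3 * e)) * x ^ (3 / 8 : ℝ) * Y) *
            ((s.1 : ℝ) * s.2) ^ (-(1 + e)) := by
          refine Finset.sum_le_sum fun s hs => ?_
          obtain ⟨c1, c2, -⟩ := hS s hs
          have c1' : (1 : ℝ) ≤ s.1 := by exact_mod_cast c1
          have c2' : (1 : ℝ) ≤ s.2 := by exact_mod_cast c2
          set W : ℝ := (s.1 : ℝ) * s.2 with hW
          have hW1 : 1 ≤ W := one_le_mul_of_one_le_of_one_le c1' c2'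
          have hW0 : 0 < W := by linarith
          have k1 : W ^ e * (W ^ (-1 : ℝ) * W ^ (2 * e) * W ^ (-(4 * e))) = W ^ (-(1 + e)) := by
            rw [← Real.rpow_add hW0, ← Real.rpow_add hW0, ← Real.rpow_add hW0]
            congr 1
            ring
          calc C_I ^ 2 * W ^ e * T s = (C_I ^ 2 * (C_T * 3 ^ B_T * C_V ^ 2) * Y) *
                (Q * M ^ 2) ^ (3 * e) *
                (W ^ e * (W ^ (-1 : ℝ) * W ^ (2 * e) * W ^ (-(4 * e)))) := by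
                rw [hT]; ring
            _ ≤ (C_I ^ 2 * (C_T * 3 ^ B_T * C_V ^ 2) * Y) * (c0 ^ (3 * e) * x ^ (3 / 8 : ℝ)) *
                W ^ (-(1 + e)) := by
                rw [k1]
                gcongr
            _ = _ := by ring
      _ = (C_I ^ 2 * (C_T * 3 ^ B_T * C_V ^ 2 * c0 ^ (3 * e)) * x ^ (3 / 8 : ℝ) * Y) *
          ∑ s ∈ X3.image (fun p => (Ideal.absNorm (g p).1, Ideal.absNorm (g p).2)),
            ((s.1 : ℝ) * s.2) ^ (-(1 + e)) := by rw [Finset.mul_sum]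
      _ ≤ (C_I ^ 2 * (C_T * 3 ^ B_T * C_V ^ 2 * c0 ^ (3 * e)) * x ^ (3 / 8 : ℝ) * Y) *
          (Z_c * x ^ (-(1 : ℝ))) := by
          have := hcong q hq.one_le _ hS
          rw [← hx] at this
          gcongr
      _ = Kc * (x ^ (3 / 8 : ℝ) * x ^ (-(1 : ℝ))) * Y := by rw [hKc]; ring
      _ = Kc * x ^ (-(5 / 8 : ℝ)) * Y := by
          rw [← Real.rpow_add hx0]
          norm_num
  rw [hsplit]
  calc ∑ p ∈ X1, w p + ∑ p ∈ X2, w p + ∑ p ∈ X3, w p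
      ≤ Ka / Real.log x * Y + Kb * x ^ (-(δ / 32)) * Y + Kc * x ^ (-(5 / 8 : ℝ)) * Y :=
        add_le_add (add_le_add h1 h2) h3
    _ = (Ka / Real.log x + Kb * x ^ (-(δ / 32)) + Kc * x ^ (-(5 / 8 : ℝ))) * Y := by ring
    _ ≤ η * Y := mul_le_mul_of_nonneg_right hfin hY0

end Pool.Agent.H1.CRG
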