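import Pool.Agent.H65.CRG.TL

/-!
Module Q1 of the board crg_modules: the constant is at least one.
-/

set_option autoImplicit false

open MeasureTheory Set

namespace Pool.Agent.H1.CRG

open Pool.Agent.H65.CRG

theorem pf_Q1 (h1 : Pool.Agent.H65.CRG.T_QI) : Pool.Agent.H65.CRG.T_Q1 := by
  intro N m R x hp hx
  obtain ⟨-, hQ0, -, -, hC⟩ := h1 N m hp
  have hg := hC R
  obtain ⟨g, hgd⟩ : ∃ g : ℝ → ℝ, g = gQ N m R := ⟨_, rfl⟩
  have hg0 : g 0 = 1 := by
    rw [hgd]
    unfold gQ
    rw [hQ0]
    simp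
  unfold cQ
  rw [← hgd] at hg ⊢
  have hd : Differentiable ℝ g := hg.differentiable (by norm_num)
  have hc : Continuous g := hg.continuous
  have hc' : Continuous (deriv g) := hg.continuous_deriv (by norm_num)
  have e1 : ∫ v in (0 : ℝ)..1, g v * deriv g v = g 1 ^ 2 / 2 - 1 / 2 := by
    have h2 : ∀ v ∈ uIcc (0 : ℝ) 1, HasDerivAt (fun v => g v ^ 2 / 2) (g v * deriv g v) v := by
      intro v _
      have h3 := ((hd v).hasDerivAt.pow 2).div_const 2
      refine h3.congr_deriv ?_
      push_cast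
      ring
    rw [intervalIntegral.integral_eq_sub_of_hasDerivAt h2
      ((hc.mul hc').intervalIntegrable _ _), hg0]
    norm_num
  have e2 : ∫ v in (0 : ℝ)..1, (1 / x * g v ^ 2 + g v * deriv g v + x / 3 * deriv g v ^ 2) =
      1 / x * (∫ v in (0 : ℝ)..1, g v ^ 2) + (g 1 ^ 2 / 2 - 1 / 2) +
        x / 3 * ∫ v in (0 : ℝ)..1, deriv g v ^ 2 := by
    rw [intervalIntegral.integral_add, intervalIntegral.integral_add,
      intervalIntegral.integral_const_mul, intervalIntegral.integral_const_mul, e1]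
    · exact (continuous_const.mul (hc.pow 2)).intervalIntegrable _ _
    · exact (hc.mul hc').intervalIntegrable _ _
    · exact ((continuous_const.mul (hc.pow 2)).add (hc.mul hc')).intervalIntegrable _ _
    · exact (continuous_const.mul (hc'.pow 2)).intervalIntegrable _ _
  have e3 : 0 ≤ ∫ v in (0 : ℝ)..1,
      (1 / x * g v ^ 2 + g v * deriv g v + x / 3 * deriv g v ^ 2) := by
    refine intervalIntegral.integral_nonneg (by norm_num) fun v _ => ?_
    have h4 : 1 / x * g v ^ 2 + g v * deriv g v + x / 3 * deriv g v ^ 2 =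
        1 / x * (g v + x * deriv g v / 2) ^ 2 + x / 12 * deriv g v ^ 2 := by
      field_simp
      ring
    rw [h4]
    positivity
  rw [e2] at e3
  linarith

end Pool.Agent.H1.CRG
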